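import Mathlib
import Pool.Agent.Helper36.Schunck.Main

set_option autoImplicit false

namespace Pool.Agent.Results.MP_d8b6f8_al.NotDClass

open Pool.Agent.Helper36.Schunck

/-- Question 1 has a negative answer: there is a Schunck class `X` with `X X = X` and a finite
soluble group having a maximal `X`-subgroup that is not an `X`-projector. -/
theorem result :
    ∃ X : SolClass, IsSchunckClass X ∧ SquareEq X.Mem ∧
      ∃ (G : Type) (_ : Group G), Finite G ∧ Group.IsSolvable G ∧
        ∃ H : Subgroup G, IsMaximalXSubgroup X H ∧ ¬ IsProjector X H :=
  ⟨XC, XC_schunck, XC_square, GG, inferInstance, inferInstance, inferInstance,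
    exists_maximal_not_projector⟩

end Pool.Agent.Results.MP_d8b6f8_al.NotDClass
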