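import Mathlib
import Pool.Agent.Helper36.Schunck.Main2

set_option autoImplicit false

namespace Pool.Agent.Results.MP_d8b6f8_al.NotSublattice

open Pool.Agent.Helper36.Schunck

/-- Question 2 has a negative answer: there are Schunck classes `X`, `Y` with `X X = X` and
`Y Y = Y` whose join `J = X ∨ Y` in the lattice of Schunck classes does not satisfy `J J = J`. -/
theorem result :
    ∃ X Y : SolClass, IsSchunckClass X ∧ SquareEq X.Mem ∧ IsSchunckClass Y ∧ SquareEq Y.Mem ∧
      ¬ SquareEq (InJoin X Y) :=
  ⟨XC, YC, XC_schunck, XC_square, pClass_schunck 5, pClass_square 5, join_not_square⟩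

end Pool.Agent.Results.MP_d8b6f8_al.NotSublattice
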